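import Mathlib

set_option autoImplicit false

namespace Pool.Agent.H784Z.FatTree

/-- Vertices of the complete `D`-ary tree of height `h`. -/
abbrev Vx (D h : ℕ) : Type := {l : List (Fin D) // l.length ≤ h}

instance instFiniteVx (D h : ℕ) : Finite (Vx D h) :=
  (List.finite_length_le (Fin D) h).to_subtype

/-- The complete `D`-ary tree of height `h`. -/
def T (D h : ℕ) : SimpleGraph (Vx D h) where
  Adj x y := (∃ c, x.1 = c :: y.1) ∨ (∃ c, y.1 = c :: x.1)
  symm := ⟨fun _ _ h => h.symm⟩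
  loopless := ⟨fun x h => by
    rcases h with ⟨c, hc⟩ | ⟨c, hc⟩ <;>
    · have := congrArg List.length hc
      simp at this⟩

variable {D h : ℕ}

/-- leaving the subtree below `c :: a` forces a visit of `a` -/
theorem exit_parent {x y : Vx D h} (q : (T D h).Walk x y) (c : Fin D) (a : List (Fin D))
    (hx : c :: a <:+ x.1) (hy : ¬ c :: a <:+ y.1) : ∃ z ∈ q.support, z.1 = a := by
  induction q with
  | nil => exact absurd hx hy
  | @cons u v w huv q ih =>
    by_cases hv : c :: a <:+ v.1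
    · obtain ⟨z, hz, hza⟩ := ih hv hy
      exact ⟨z, by simp [hz], hza⟩
    · rcases huv with ⟨e, he⟩ | ⟨e, he⟩
      · rw [he, List.suffix_cons_iff] at hx
        rcases hx with hx | hx
        · refine ⟨v, by simp, ?_⟩
          exact (List.cons.inj hx).2.symm
        · exact absurd hx hv
      · exact absurd (by rw [he]; exact hx.trans (List.suffix_cons e u.1)) hv

/-- leaving the subtree below `a` forces a visit of `a` -/
theorem exit_self {x y : Vx D h} (q : (T D h).Walk x y) (a : List (Fin D))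
    (hx : a <:+ x.1) (hy : ¬ a <:+ y.1) : ∃ z ∈ q.support, z.1 = a := by
  induction q with
  | nil => exact absurd hx hy
  | @cons u v w huv q ih =>
    by_cases hv : a <:+ v.1
    · obtain ⟨z, hz, hza⟩ := ih hv hy
      exact ⟨z, by simp [hz], hza⟩
    · rcases huv with ⟨e, he⟩ | ⟨e, he⟩
      · rw [he, List.suffix_cons_iff] at hx
        rcases hx with hx | hx
        · exact ⟨u, by simp, by rw [he, hx]⟩
        · exact absurd hx hv
      · exact absurd (by rw [he]; exact hx.trans (List.suffix_cons e u.1)) hv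

theorem len_le {x y : Vx D h} (q : (T D h).Walk x y) : y.1.length ≤ x.1.length + q.length := by
  induction q with
  | nil => simp
  | @cons u v w huv q ih =>
    rw [SimpleGraph.Walk.length_cons]
    rcases huv with ⟨e, he⟩ | ⟨e, he⟩
    · have := congrArg List.length he
      simp at this; omega
    · have := congrArg List.length he
      simp at this; omega

theorem suffix_cases {a l : List (Fin D)} (ha : a <:+ l) : a = l ∨ ∃ c, c :: a <:+ l := by
  obtain ⟨t, rfl⟩ := ha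
  rcases List.eq_nil_or_concat t with rfl | ⟨t', c, rfl⟩
  · left; simp
  · right; exact ⟨c, t', by simp⟩

/-- a vertex `a` maximal with two of three points below it lies on each walk between two of them -/
theorem on_walk {x y : Vx D h} (q : (T D h).Walk x y) (a : List (Fin D))
    (hor : a <:+ x.1 ∨ a <:+ y.1)
    (hmax : ∀ c, ¬ (c :: a <:+ x.1 ∧ c :: a <:+ y.1)) : ∃ z ∈ q.support, z.1 = a := by
  by_cases hx : a <:+ x.1
  · by_cases hy : a <:+ y.1
    · rcases suffix_cases hx with h1 | ⟨c, hc⟩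
      · exact ⟨x, by simp, h1.symm⟩
      · exact exit_parent q c a hc (fun h2 => hmax c ⟨hc, h2⟩)
    · exact exit_self q a hx hy
  · have hy : a <:+ y.1 := hor.resolve_left hx
    obtain ⟨z, hz, hza⟩ := exit_self q.reverse a hy hx
    exact ⟨z, by simpa using hz, hza⟩

/-- median property of the tree -/
theorem median (x y z : Vx D h) (q₁ : (T D h).Walk x y) (q₂ : (T D h).Walk y z)
    (q₃ : (T D h).Walk z x) : ∃ m, m ∈ q₁.support ∧ m ∈ q₂.support ∧ m ∈ q₃.support := by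
  classical
  let Q : ℕ → Prop := fun n => ∃ a : List (Fin D), a.length = n ∧
    ((a <:+ x.1 ∧ a <:+ y.1) ∨ (a <:+ y.1 ∧ a <:+ z.1) ∨ (a <:+ z.1 ∧ a <:+ x.1))
  have hQ0 : Q 0 := ⟨[], rfl, Or.inl ⟨List.nil_suffix, List.nil_suffix⟩⟩
  have hspec : Q (Nat.findGreatest Q h) := Nat.findGreatest_spec (Nat.zero_le h) hQ0
  obtain ⟨a, hal, ha⟩ := hspec
  have hmax : ∀ c : Fin D, ¬ ((c :: a <:+ x.1 ∧ c :: a <:+ y.1) ∨ (c :: a <:+ y.1 ∧ c :: a <:+ z.1)
      ∨ (c :: a <:+ z.1 ∧ c :: a <:+ x.1)) := by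
    intro c hc
    have hle : (c :: a).length ≤ h := by
      rcases hc with hc | hc | hc
      · exact hc.1.length_le.trans x.2
      · exact hc.1.length_le.trans y.2
      · exact hc.1.length_le.trans z.2
    have := Nat.le_findGreatest (P := Q) hle ⟨c :: a, rfl, hc⟩
    simp at this; omega
  obtain ⟨m₁, hm₁, e₁⟩ := on_walk q₁ a (by tauto) (fun c hc => hmax c (Or.inl hc))
  obtain ⟨m₂, hm₂, e₂⟩ := on_walk q₂ a (by tauto) (fun c hc => hmax c (Or.inr (Or.inl hc)))
  obtain ⟨m₃, hm₃, e₃⟩ := on_walk q₃ a (by tauto) (fun c hc => hmax c (Or.inr (Or.inr hc)))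
  have h12 : m₂ = m₁ := Subtype.ext (e₂.trans e₁.symm)
  have h13 : m₃ = m₁ := Subtype.ext (e₃.trans e₁.symm)
  exact ⟨m₁, hm₁, h12 ▸ hm₂, h13 ▸ hm₃⟩

/-- some child of a non-leaf vertex lies in the cluster of that vertex -/
theorem child_same (p : ℕ) (f : Vx (p + 1) h → Vx (p + 1) h)
    (h1 : ∀ x y, f x = f y → ∃ q : (T (p + 1) h).Walk x y, ∀ z ∈ q.support, f z = f x)
    (h3 : ∀ u, {i | ∃ v, (T (p + 1) h).edist u v ≤ 2 ∧ f v = i}.ncard ≤ p)
    (u : Vx (p + 1) h) (hu : u.1.length < h) :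
    ∃ v : Vx (p + 1) h, v.1.length = u.1.length + 1 ∧ f v = f u := by
  by_contra hcon
  push Not at hcon
  let ch : Fin (p + 1) → Vx (p + 1) h := fun c => ⟨c :: u.1, by simp; omega⟩
  have hinj : Function.Injective (fun c => f (ch c)) := by
    intro c c' hcc
    by_contra hne
    obtain ⟨q, hq⟩ := h1 _ _ hcc
    obtain ⟨z, hz, hza⟩ := exit_parent q c u.1 (List.suffix_refl _) (by
      intro hs
      have := hs.eq_of_length (by simp [ch])
      exact hne (List.cons.inj this).1)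
    have hzu : z = u := Subtype.ext hza
    exact hcon (ch c) (by simp [ch]) (by rw [← hq z hz, hzu])
  have hsub : Set.range (fun c => f (ch c)) ⊆
      {i | ∃ v, (T (p + 1) h).edist u v ≤ 2 ∧ f v = i} := by
    rintro _ ⟨c, rfl⟩
    refine ⟨ch c, ?_, rfl⟩
    have hadj : (T (p + 1) h).Adj u (ch c) := Or.inr ⟨c, rfl⟩
    rw [SimpleGraph.edist_eq_one_iff_adj.2 hadj]
    exact one_le_two
  have hcard := Set.ncard_le_ncard hsub (Set.toFinite _)
  rw [Set.ncard_range_of_injective hinj] at hcard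
  have := hcard.trans (h3 u)
  simp at this

theorem no_partition (p d : ℕ) (f : Vx (p + 1) (d + 1) → Vx (p + 1) (d + 1))
    (h1 : ∀ x y, f x = f y → ∃ q : (T (p + 1) (d + 1)).Walk x y, ∀ z ∈ q.support, f z = f x)
    (h2 : ∀ x y, f x = f y → (T (p + 1) (d + 1)).edist x y ≤ (d : ℕ∞))
    (h3 : ∀ u, {i | ∃ v, (T (p + 1) (d + 1)).edist u v ≤ 2 ∧ f v = i}.ncard ≤ p) : False := by
  let r : Vx (p + 1) (d + 1) := ⟨[], by simp⟩
  have key : ∀ n, n ≤ d + 1 → ∃ v : Vx (p + 1) (d + 1), v.1.length = n ∧ f v = f r := by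
    intro n
    induction n with
    | zero => intro _; exact ⟨r, rfl, rfl⟩
    | succ n ih =>
      intro hn
      obtain ⟨u, hu, hfu⟩ := ih (by omega)
      obtain ⟨v, hv, hfv⟩ := child_same p f h1 h3 u (by omega)
      exact ⟨v, by omega, hfv.trans hfu⟩
  obtain ⟨v, hv, hfv⟩ := key (d + 1) le_rfl
  have hd := h2 r v hfv.symm
  have hne : (T (p + 1) (d + 1)).edist r v ≠ ⊤ := ne_top_of_le_ne_top (by simp) hd
  obtain ⟨q, hq⟩ := SimpleGraph.exists_walk_of_edist_ne_top hne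
  have := len_le q
  rw [← hq] at hd
  have hd' : q.length ≤ d := by exact_mod_cast hd
  simp [r] at this
  omega

theorem no_triangle (B : Fin 3 → Set (Vx D h)) (P : Fin 3 → Fin 3 → Set (Vx D h))
    (hB : ∀ w, ∀ x ∈ B w, ∀ y ∈ B w, ∃ q : (T D h).Walk x y, ∀ z ∈ q.support, z ∈ B w)
    (hP : ∀ a b, a ≠ b →
      ∃ x ∈ B a, ∃ y ∈ B b, ∃ q : (T D h).Walk x y, ∀ z ∈ q.support, z ∈ P a b)
    (hBB : ∀ v w, v ≠ w → ∀ x ∈ B v, x ∉ B w)
    (hPB : ∀ a b, a ≠ b → ∀ v, v ≠ a → v ≠ b → ∀ x ∈ P a b, x ∉ B v)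
    (hPP : ∀ x ∈ P 0 1, x ∉ P 1 2) : False := by
  obtain ⟨x0, hx0, y1, hy1, q01, h01⟩ := hP 0 1 (by decide)
  obtain ⟨x1, hx1, y2, hy2, q12, h12⟩ := hP 1 2 (by decide)
  obtain ⟨x2, hx2, y0, hy0, q20, h20⟩ := hP 2 0 (by decide)
  obtain ⟨r0, hr0⟩ := hB 0 y0 hy0 x0 hx0
  obtain ⟨r1, hr1⟩ := hB 1 y1 hy1 x1 hx1
  obtain ⟨r2, hr2⟩ := hB 2 y2 hy2 x2 hx2
  obtain ⟨m, m1, m2, m3⟩ := median y0 y1 y2 (r0.append q01) (r1.append q12) (r2.append q20)
  rw [SimpleGraph.Walk.mem_support_append_iff] at m1 m2 m3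
  have a1 : m ∈ B 0 ∨ m ∈ P 0 1 := m1.imp (hr0 m) (h01 m)
  have a2 : m ∈ B 1 ∨ m ∈ P 1 2 := m2.imp (hr1 m) (h12 m)
  have a3 : m ∈ B 2 ∨ m ∈ P 2 0 := m3.imp (hr2 m) (h20 m)
  rcases a1 with a1 | a1
  · rcases a2 with a2 | a2
    · exact hBB 0 1 (by decide) m a1 a2
    · exact hPB 1 2 (by decide) 0 (by decide) (by decide) m a2 a1
  · rcases a2 with a2 | a2
    · rcases a3 with a3 | a3
      · exact hBB 1 2 (by decide) m a2 a3
      · exact hPB 2 0 (by decide) 1 (by decide) (by decide) m a3 a2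
    · exact hPP m a1 a2

end Pool.Agent.H784Z.FatTree
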